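import Mathlib

/-!
# Coloops: the statement in rank `r + 1` gives the statement in rank `r`
-/


set_option autoImplicit false

namespace Pool.Agent.Gab7c74

/-- block (same text as in the results) -/
def block {α : Type*} {r : ℕ} (u v : Fin r → α) (i : Fin (r + r)) : Set α :=
  {x | ∃ j : Fin (r + r), (j - i).val < r ∧ x = Fin.append u v j}

theorem subval {n : ℕ} (j i : Fin n) :
    (j - i).val = if i.val ≤ j.val then j.val - i.val else n + j.val - i.val := by
  have hi := i.isLt
  have hj := j.isLt
  rw [Fin.sub_def]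
  change (n - i.val + j.val) % n = _
  split_ifs with h
  · have : n - i.val + j.val = (j.val - i.val) + n := by omega
    rw [this, Nat.add_mod_right, Nat.mod_eq_of_lt (by omega)]
  · rw [Nat.mod_eq_of_lt (by omega)]
    omega

theorem mem_block {α : Type*} {r : ℕ} (u v : Fin r → α) (i : Fin (r + r)) (x : α) :
    x ∈ block u v i ↔
      (∃ k : Fin r, (i.val ≤ k.val ∨ r + k.val < i.val) ∧ x = u k) ∨
      (∃ k : Fin r, (k.val < i.val ∧ i.val ≤ r + k.val) ∧ x = v k) := by
  have hi := i.isLt
  constructor
  · rintro ⟨j, hj, rfl⟩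
    revert hj
    refine Fin.addCases (fun k => ?_) (fun k => ?_) j
    · intro hj
      rw [subval] at hj
      have hk := k.isLt
      simp only [Fin.val_castAdd] at hj
      left
      refine ⟨k, ?_, by rw [Fin.append_left]⟩
      split_ifs at hj with h
      · exact Or.inl h
      · right; omega
    · intro hj
      rw [subval] at hj
      have hk := k.isLt
      simp only [Fin.val_natAdd] at hj
      right
      refine ⟨k, ?_, by rw [Fin.append_right]⟩
      split_ifs at hj with h
      · exact ⟨by omega, h⟩
      · omega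
  · rintro (⟨k, hk, rfl⟩ | ⟨k, hk, rfl⟩)
    · refine ⟨Fin.castAdd r k, ?_, by rw [Fin.append_left]⟩
      rw [subval]
      have := k.isLt
      simp only [Fin.val_castAdd]
      split_ifs with h <;> omega
    · refine ⟨Fin.natAdd r k, ?_, by rw [Fin.append_right]⟩
      rw [subval]
      have := k.isLt
      simp only [Fin.val_natAdd]
      split_ifs with h <;> omega

/-- an injective list of elements of the range of `b` is a rearrangement of `b` -/
theorem exists_perm {α : Type*} {r : ℕ} (b w : Fin r → α) (hw : Function.Injective w)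
    (h : ∀ k, w k ∈ Set.range b) : ∃ τ : Equiv.Perm (Fin r), b ∘ τ = w := by
  choose f hf using h
  have hinj : Function.Injective f := by
    intro a c hac
    apply hw
    rw [← hf a, ← hf c, hac]
  exact ⟨Equiv.ofBijective f (Finite.injective_iff_bijective.mp hinj), funext hf⟩

/-- adding a common element at the end -/
def ext {α : Type*} {r : ℕ} (b : Fin r → α) : Fin (r + 1) → α ⊕ Unit :=
  Fin.snoc (α := fun _ => α ⊕ Unit) (fun k => Sum.inl (b k)) (Sum.inr ())

theorem ext_castSucc {α : Type*} {r : ℕ} (b : Fin r → α) (k : Fin r) :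
    ext b k.castSucc = Sum.inl (b k) := by simp [ext]

theorem ext_last {α : Type*} {r : ℕ} (b : Fin r → α) : ext b (Fin.last r) = Sum.inr () := by
  simp [ext]

theorem ext_inj {α : Type*} {r : ℕ} {b : Fin r → α} (hb : Function.Injective b) :
    Function.Injective (ext b) := by
  intro j k
  refine Fin.lastCases ?_ (fun j => ?_) j
  · refine Fin.lastCases (fun _ => rfl) (fun k h => ?_) k
    rw [ext_last, ext_castSucc] at h
    exact absurd h (by simp)
  · refine Fin.lastCases (fun h => ?_) (fun k h => ?_) k
    · rw [ext_last, ext_castSucc] at h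
      exact absurd h (by simp)
    · rw [ext_castSucc, ext_castSucc, Sum.inl.injEq] at h
      rw [hb h]

theorem range_ext {α : Type*} {r : ℕ} (b : Fin r → α) (x : α ⊕ Unit) :
    x ∈ Set.range (ext b) ↔ (∃ y ∈ Set.range b, x = Sum.inl y) ∨ x = Sum.inr () := by
  constructor
  · rintro ⟨j, rfl⟩
    refine Fin.lastCases ?_ (fun j => ?_) j
    · right; exact ext_last b
    · left; exact ⟨b j, ⟨j, rfl⟩, ext_castSucc b j⟩
  · rintro (⟨y, ⟨k, rfl⟩, rfl⟩ | rfl)
    · exact ⟨k.castSucc, ext_castSucc b k⟩
    · exact ⟨Fin.last r, ext_last b⟩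

/-- the matroid with one coloop more -/
noncomputable def up {α : Type*} (M : Matroid α) : Matroid (α ⊕ Unit) :=
  M.sum (Matroid.freeOn (Set.univ : Set Unit))

theorem up_isBase {α : Type*} (M : Matroid α) (B : Set (α ⊕ Unit)) :
    (up M).IsBase B ↔ M.IsBase (Sum.inl ⁻¹' B) ∧ Sum.inr () ∈ B := by
  unfold up
  rw [Matroid.sum_isBase_iff, Matroid.freeOn_isBase_iff]
  refine and_congr_right fun _ => ?_
  constructor
  · intro h
    have : () ∈ (Sum.inr ⁻¹' B : Set Unit) := by rw [h]; trivial
    exact this
  · intro h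
    ext x
    simp only [Set.mem_preimage, Set.mem_univ, iff_true]
    exact h

theorem up_range {α : Type*} (M : Matroid α) {r : ℕ} {b : Fin r → α}
    (hB : M.IsBase (Set.range b)) : (up M).IsBase (Set.range (ext b)) := by
  rw [up_isBase]
  constructor
  · convert hB using 1
    ext x
    rw [Set.mem_preimage, range_ext]
    constructor
    · rintro (⟨y, hy, h⟩ | h)
      · rw [Sum.inl.injEq] at h; rwa [h]
      · exact absurd h (by simp)
    · intro h
      exact Or.inl ⟨x, h, rfl⟩
  · rw [range_ext]; exact Or.inr rfl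

/-- position in the long sequence -/
def pos (p k : ℕ) : ℕ := if k < p then k else k + 1

/-- **A rearrangement of the extended bases gives one of the bases.** -/
theorem down {α : Type*} (M : Matroid α) {r : ℕ} (b b' : Fin r → α)
    (hb : Function.Injective b) (hb' : Function.Injective b')
    (H : ∃ σ σ' : Equiv.Perm (Fin (r + 1)), ∀ i : Fin ((r + 1) + (r + 1)),
      (up M).IsBase (block (ext b ∘ σ) (ext b' ∘ σ') i)) :
    ∃ σ σ' : Equiv.Perm (Fin r), ∀ i : Fin (r + r), M.IsBase (block (b ∘ σ) (b' ∘ σ') i) := by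
  obtain ⟨σ, σ', hσ⟩ := H
  set U := ext b ∘ σ with hU
  set V := ext b' ∘ σ' with hV
  have iU : Function.Injective U := (ext_inj hb).comp σ.injective
  have iV : Function.Injective V := (ext_inj hb').comp σ'.injective
  set p := σ.symm (Fin.last r) with hp
  set p' := σ'.symm (Fin.last r) with hp'
  have Up : U p = Sum.inr () := by rw [hU, hp]; simp [ext_last]
  have Vp : V p' = Sum.inr () := by rw [hV, hp']; simp [ext_last]
  have hpl := p.isLt
  have hpl' := p'.isLt
  -- the same position
  have key : ∀ i : Fin ((r + 1) + (r + 1)), (i.val ≤ p.val ∨ (r + 1) + p.val < i.val) ∨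
      (p'.val < i.val ∧ i.val ≤ (r + 1) + p'.val) := by
    intro i
    have h := ((up_isBase M _).mp (hσ i)).2
    rw [mem_block] at h
    rcases h with ⟨k, hk, h⟩ | ⟨k, hk, h⟩
    · rw [← Up] at h
      rw [iU h]
      exact Or.inl hk
    · rw [← Vp] at h
      rw [iV h]
      exact Or.inr hk
  have hpp : p = p' := by
    apply Fin.ext
    have h1 := key ⟨p.val + 1, by omega⟩
    have h2 : p'.val ≤ p.val := by
      simp only at h1
      omega
    by_contra hne
    have h3 := key ⟨(r + 1) + p'.val + 1, by omega⟩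
    simp only at h3
    omega
  -- the short sequences
  have hu : ∀ k : Fin r, ∃ y ∈ Set.range b, U (p.succAbove k) = Sum.inl y := by
    intro k
    have h : U (p.succAbove k) ∈ Set.range (ext b) := ⟨σ (p.succAbove k), rfl⟩
    rw [range_ext] at h
    rcases h with h | h
    · exact h
    · rw [← Up] at h
      exact absurd (iU h) (Fin.succAbove_ne p k)
  have hv : ∀ k : Fin r, ∃ y ∈ Set.range b', V (p.succAbove k) = Sum.inl y := by
    intro k
    have h : V (p.succAbove k) ∈ Set.range (ext b') := ⟨σ' (p.succAbove k), rfl⟩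
    rw [range_ext] at h
    rcases h with h | h
    · exact h
    · rw [← Vp, ← hpp] at h
      exact absurd (iV h) (Fin.succAbove_ne p k)
  choose u hu1 hu2 using hu
  choose v hv1 hv2 using hv
  have iu : Function.Injective u := by
    intro a c h
    have : U (p.succAbove a) = U (p.succAbove c) := by rw [hu2, hu2, h]
    exact Fin.succAbove_right_injective (iU this)
  have iv : Function.Injective v := by
    intro a c h
    have : V (p.succAbove a) = V (p.succAbove c) := by rw [hv2, hv2, h]
    exact Fin.succAbove_right_injective (iV this)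
  obtain ⟨τ, hτ⟩ := exists_perm b u iu hu1
  obtain ⟨τ', hτ'⟩ := exists_perm b' v iv hv1
  refine ⟨τ, τ', fun i => ?_⟩
  rw [hτ, hτ']
  have hi := i.isLt
  -- the long index
  obtain ⟨n, hn, hn1, hn2, hn3⟩ : ∃ n, n < (r + 1) + (r + 1) ∧ (i.val ≤ p.val → n = i.val) ∧
      (p.val < i.val → i.val ≤ r + p.val → n = i.val + 1) ∧
      (r + p.val < i.val → n = i.val + 2) := by
    by_cases h1 : i.val ≤ p.val
    · exact ⟨i.val, by omega, fun _ => rfl, fun _ => by omega, fun _ => by omega⟩
    · by_cases h2 : i.val ≤ r + p.val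
      · exact ⟨i.val + 1, by omega, fun _ => by omega, fun _ _ => rfl, fun _ => by omega⟩
      · exact ⟨i.val + 2, by omega, fun _ => by omega, fun _ _ => by omega, fun _ => rfl⟩
  have sv : ∀ k : Fin r, ((p.succAbove k).val = k.val ∧ k.val < p.val) ∨
      ((p.succAbove k).val = k.val + 1 ∧ p.val ≤ k.val) := by
    intro k
    by_cases h : k.val < p.val
    · left
      refine ⟨?_, h⟩
      rw [Fin.succAbove_of_castSucc_lt _ _ (by rw [Fin.lt_def]; simpa using h)]
      rfl
    · right
      refine ⟨?_, by omega⟩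
      rw [Fin.succAbove_of_le_castSucc _ _ (by rw [Fin.le_def]; simp only [Fin.val_castSucc]; omega)]
      rfl
  have h := ((up_isBase M _).mp (hσ ⟨n, hn⟩)).1
  convert h using 1
  ext x
  rw [Set.mem_preimage, mem_block, mem_block]
  constructor
  · rintro (⟨k, hk, rfl⟩ | ⟨k, hk, rfl⟩)
    · left
      refine ⟨p.succAbove k, ?_, (hu2 k).symm⟩
      have hkl := k.isLt
      rcases sv k with ⟨h1, h2⟩ | ⟨h1, h2⟩ <;> rw [h1] <;> simp only <;> omega
    · right
      refine ⟨p.succAbove k, ?_, (hv2 k).symm⟩
      have hkl := k.isLt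
      rcases sv k with ⟨h1, h2⟩ | ⟨h1, h2⟩ <;> rw [h1] <;> simp only <;> omega
  · rintro (⟨K, hk, h⟩ | ⟨K, hk, h⟩)
    · left
      have hne : K ≠ p := by
        rintro rfl
        rw [Up] at h
        exact absurd h (by simp)
      obtain ⟨k, rfl⟩ := Fin.exists_succAbove_eq hne
      rw [hu2, Sum.inl.injEq] at h
      refine ⟨k, ?_, h⟩
      have hkl := k.isLt
      simp only at hk
      rcases sv k with ⟨h1, h2⟩ | ⟨h1, h2⟩ <;> rw [h1] at hk <;> omega
    · right
      have hne : K ≠ p := by
        rintro rfl
        rw [hpp, Vp] at h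
        exact absurd h (by simp)
      obtain ⟨k, rfl⟩ := Fin.exists_succAbove_eq hne
      rw [hv2, Sum.inl.injEq] at h
      refine ⟨k, ?_, h⟩
      have hkl := k.isLt
      simp only at hk
      rcases sv k with ⟨h1, h2⟩ | ⟨h1, h2⟩ <;> rw [h1] at hk <;> omega

/-- the statement in rank `r`, for all matroids on types of one universe -/
def St.{u} (r : ℕ) : Prop := ∀ (α : Type u) (M : Matroid α) (b b' : Fin r → α),
    Function.Injective b → Function.Injective b' → M.IsBase (Set.range b) →
    M.IsBase (Set.range b') →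
    ∃ σ σ' : Equiv.Perm (Fin r), ∀ i : Fin (r + r), M.IsBase (block (b ∘ σ) (b' ∘ σ') i)

theorem St.down.{u} {r : ℕ} (h : St.{u} (r + 1)) : St.{u} r := fun _ M b b' hb hb' hB hB' =>
  Gab7c74.down M b b' hb hb' (h _ (up M) (ext b) (ext b') (ext_inj hb) (ext_inj hb')
    (up_range M hB) (up_range M hB'))

/-- the statement in rank `N` gives the statement in all smaller ranks -/
theorem St.le.{u} {N : ℕ} (h : St.{u} N) : ∀ {r : ℕ}, r ≤ N → St.{u} r := by
  intro r hr
  obtain ⟨d, rfl⟩ := Nat.exists_eq_add_of_le hr
  induction d with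
  | zero => exact h
  | succ d ih => exact ih h.down (by omega)

end Pool.Agent.Gab7c74
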